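import Pool.Agent.Helper14.TK7.StD

/-!
# Project TK (level `3 * 7^n`), module Uni: a symbol with zero plane functions is constant

Adapted from `Pool/Agent/Helper70/TH7/M_Uni.lean` and `Pool/Agent/Helper77/TK/M_Uni.lean`.
-/

set_option autoImplicit false

namespace Pool.Agent.Helper51.TK7

open Pool.Agent.Helper14.TK7 Pool.Agent.Helper84.S7
open Pool.Agent.Helper4.TK (KTy SymK)
open Pool.Agent.Helper76.TK7 (PlK rYK edgeK HPlAK HEdgK)
open Pool.Agent.Helper14.CV (Homog EqC act Tl StFar StFex)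

private lemma un1 (n : ℕ) {a b c d : ℤ} (h : KTy a b (7 * c) d) :
    IsUnit (a : ZMod (7 ^ n)) ∧ IsUnit (d : ZMod (7 ^ n)) := by
  have key : ∀ k : ℤ, IsCoprime k 7 → IsUnit (k : ZMod (7 ^ n)) := by
    intro k hk
    rw [ZMod.coe_int_isUnit_iff_isCoprime]
    push_cast
    exact IsCoprime.pow_left hk.symm
  rcases h with ⟨h, _⟩ | ⟨h, _⟩
  · exact ⟨key a ⟨d, -(b * c), by linear_combination h⟩, key d ⟨a, -(b * c), by linear_combination h⟩⟩
  · exact ⟨key a ⟨-2 * d, 1 + 2 * b * c, by linear_combination (-2) * h⟩,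
      key d ⟨-2 * a, 1 + 2 * b * c, by linear_combination (-2) * h⟩⟩

private lemma dvd7 {n : ℤ} : (7 : ℤ) ∣ n ↔ (n : ZMod 7) = 0 :=
  (ZMod.intCast_zmod_eq_zero_iff_dvd n 7).symm

private lemma cls8 : ∀ r s : ZMod 7,
    (r = 0 ∨ r - 3 * s = 0 ∨ r - 2 * s = 0 ∨ r - 4 * s = 0) ∨ r - 5 * s = 0 ∨
      (3 * s = 0 ∨ 3 * s + 3 * r = 0 ∨ 3 * s + 2 * r = 0 ∨ 3 * s + 4 * r = 0) := by decide

private lemma mulT {a b c d : ℤ} (h : KTy a b c d) (α β γ δ : ℤ) (h1 : α * δ - β * γ = 1)
    (h2 : (3 : ℤ) ∣ γ) {A B C D : ℤ} (hA : A = a * α + b * γ) (hB : B = a * β + b * δ)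
    (hC : C = c * α + d * γ) (hD : D = c * β + d * δ) : KTy A B C D := by
  subst hA hB hC hD
  rcases h with ⟨h, h3⟩ | ⟨h, h3, h4, h5⟩
  · refine Or.inl ⟨by linear_combination (α * δ - β * γ) * h + h1, ?_⟩
    exact dvd_add (h3.mul_right _) (h2.mul_left _)
  · refine Or.inr ⟨by linear_combination (α * δ - β * γ) * h + 3 * h1, ?_, ?_, ?_⟩
    · exact dvd_add (h3.mul_right _) (h2.mul_left _)
    · exact dvd_add (h4.mul_right _) (h2.mul_left _)
    · exact dvd_add (h4.mul_right _) (h5.mul_right _)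

/-- UNI. -/
theorem hUni (he : HEdgK) (ha : HPlAK) (hf : StFar) : TUni := by
  have _ := ha
  intro R _ r s G hG hz
  have key : ∀ a b c d : ℤ, KTy a b (7 * c) d →
      G a (7 * c) = G b d ∧ G (a + 3 * b) (7 * c + 3 * d) = G b d ∧
        G (a + 2 * b) (7 * c + 2 * d) = G b d ∧ G (2 * a + 3 * b) (2 * (7 * c) + 3 * d) = G b d := by
    intro a b c d h
    have ha : IsUnit (a : ZMod (7 ^ r)) := (un1 r h).1
    have hd : IsUnit (d : ZMod (7 ^ s)) := (un1 s h).2
    have hp : PlK 0 a b c d ((b : ZMod (7 ^ r)) * (a : ZMod (7 ^ r))⁻¹)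
        ((c : ZMod (7 ^ s)) * (d : ZMod (7 ^ s))⁻¹) := by
      refine ⟨by rwa [pow_zero, one_mul], ?_, ?_⟩
      · rw [mul_assoc, ZMod.inv_mul_of_unit _ ha, mul_one]
      · rw [mul_assoc, ZMod.inv_mul_of_unit _ hd, mul_one]
    have e : ∀ (i : Fin 4), (n4 i ≠ 0 ∨ e4 i ≠ 0) →
        G (n4 i * a + e4 i * b) (n4 i * (7 * c) + e4 i * d) = G b d := by
      intro i hi
      have z0 : edgeK 0 (n4 i) (e4 i) 0 1 G ((b : ZMod (7 ^ r)) * (a : ZMod (7 ^ r))⁻¹)
          ((c : ZMod (7 ^ s)) * (d : ZMod (7 ^ s))⁻¹) = 0 :=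
        congrFun (congrFun (hz i) ((b : ZMod (7 ^ r)) * (a : ZMod (7 ^ r))⁻¹))
          ((c : ZMod (7 ^ s)) * (d : ZMod (7 ^ s))⁻¹)
      have k0 := he R _ 0 r s G hG (n4 i) (e4 i) 0 1 hi (Or.inr one_ne_zero) _ _
        a b c d hp
      rw [z0] at k0
      have e0 : a * n4 i + 7 ^ 0 * b * e4 i = n4 i * a + e4 i * b := by ring
      have e1 : 7 * c * n4 i + d * e4 i = n4 i * (7 * c) + e4 i * d := by ring
      have e2 : a * 0 + 7 ^ 0 * b * 1 = b := by ring
      have e4 : 7 * c * 0 + d * 1 = d := by ring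
      rw [e0, e1, e2, e4] at k0
      exact sub_eq_zero.1 k0.symm
    have a0 : n4 0 = 1 := rfl
    have a1 : n4 1 = 1 := rfl
    have a2 : n4 2 = 1 := rfl
    have a3 : n4 3 = 2 := rfl
    have f0 := e 0 (Or.inl (by rw [a0]; exact one_ne_zero))
    have f1 := e 1 (Or.inl (by rw [a1]; exact one_ne_zero))
    have f2 := e 2 (Or.inl (by rw [a2]; exact one_ne_zero))
    have f3 := e 3 (Or.inl (by rw [a3]; exact two_ne_zero))
    have g0 : e4 0 = 0 := rfl
    have g1 : e4 1 = 3 := rfl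
    have g2 : e4 2 = 2 := rfl
    have g3 : e4 3 = 3 := rfl
    rw [a0, g0, zero_mul, zero_mul, add_zero, add_zero, one_mul, one_mul] at f0
    rw [a1, g1, one_mul, one_mul] at f1
    rw [a2, g2, one_mul, one_mul] at f2
    rw [a3, g3] at f3
    exact ⟨f0, f1, f2, f3⟩
  have key1 : ∀ a b c d : ℤ, KTy a b (7 * c) d → G (a + b) (7 * c + d) = G b d := by
    intro a b c d h
    have h' : KTy a (a + b) (7 * c) (7 * c + d) :=
      mulT h 1 1 0 1 (by norm_num) (by norm_num) (by ring) (by ring) (by ring) (by ring)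
    rw [← (key a b c d h).1, (key a (a + b) c (7 * c + d) h').1]
  -- homogeneity
  have hsc : ∀ k p t : ℤ, k ≠ 0 → (p ≠ 0 ∨ t ≠ 0) → G (k * p) (k * t) = G p t :=
    fun k p t hk n => hG.1 k p t hk n
  have nz : ∀ {p q t u : ℤ}, p * u - q * t ≠ 0 → (p ≠ 0 ∨ t ≠ 0) ∧ (q ≠ 0 ∨ u ≠ 0) := by
    intro p q t u h
    constructor
    · by_contra hcon
      push Not at hcon
      rw [hcon.1, hcon.2] at h
      simp at h
    · by_contra hcon
      push Not at hcon
      rw [hcon.1, hcon.2] at h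
      simp at h
  have hneg : ∀ {p t : ℤ}, (p ≠ 0 ∨ t ≠ 0) → G (-p) (-t) = G p t := by
    intro p t n
    have := hsc (-1) p t (by norm_num) n
    rwa [neg_one_mul, neg_one_mul] at this
  -- the four classes
  have hm : ∀ a b c d : ℤ, KTy a b c d →
      ((c : ZMod 7) = 0 ∨ (c : ZMod 7) - 3 * d = 0 ∨ (c : ZMod 7) - 2 * d = 0 ∨
        (c : ZMod 7) - 4 * d = 0) → G a c = G b d := by
    intro a b c d h hc
    rcases hc with e | e | e | e
    · obtain ⟨c', rfl⟩ := dvd7.2 e
      exact (key a b c' d h).1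
    · have : (7 : ℤ) ∣ c - 3 * d := dvd7.2 (by push_cast; exact e)
      obtain ⟨c', hc'⟩ := this
      have k := (key (a - 3 * b) b c' d (mulT h 1 0 (-3) 1 (by norm_num) (by norm_num)
        (by ring) (by ring) (by linear_combination -hc') (by ring))).2.1
      have g1 : a - 3 * b + 3 * b = a := by ring
      have g2 : 7 * c' + 3 * d = c := by linear_combination -hc'
      rwa [g1, g2] at k
    · have : (7 : ℤ) ∣ c - 2 * d := dvd7.2 (by push_cast; exact e)
      obtain ⟨c', hc'⟩ := this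
      have hh : KTy (2 * a + 3 * b) (-a - b) (7 * (2 * c' + d)) (-c - d) :=
        mulT h 2 (-1) 3 (-1) (by norm_num) (by norm_num)
          (by ring) (by ring) (by linear_combination -2 * hc') (by ring)
      obtain ⟨-, k1, k2, -⟩ := key _ _ _ _ hh
      have g1 : 2 * a + 3 * b + 3 * (-a - b) = -a := by ring
      have g2 : 7 * (2 * c' + d) + 3 * (-c - d) = -c := by linear_combination -2 * hc'
      have g3 : 2 * a + 3 * b + 2 * (-a - b) = b := by ring
      have g4 : 7 * (2 * c' + d) + 2 * (-c - d) = d := by linear_combination -2 * hc'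
      rw [g1, g2, hneg (nz h.det_ne).1] at k1
      rw [g3, g4] at k2
      rw [k1, k2]
    · have : (7 : ℤ) ∣ c - 4 * d := dvd7.2 (by push_cast; exact e)
      obtain ⟨c', hc'⟩ := this
      have hh : KTy (a + 3 * b) (-a - 2 * b) (7 * (c' + d)) (-c - 2 * d) :=
        mulT h 1 (-1) 3 (-2) (by norm_num) (by norm_num)
          (by ring) (by ring) (by linear_combination -hc') (by ring)
      have k1 := key1 _ _ _ _ hh
      have k2 := (key _ _ _ _ hh).2.2.2
      have g1 : a + 3 * b + (-a - 2 * b) = b := by ring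
      have g2 : 7 * (c' + d) + (-c - 2 * d) = d := by linear_combination -hc'
      have g3 : 2 * (a + 3 * b) + 3 * (-a - 2 * b) = -a := by ring
      have g4 : 2 * (7 * (c' + d)) + 3 * (-c - 2 * d) = -c := by linear_combination -2 * hc'
      rw [g1, g2] at k1
      rw [g3, g4, hneg (nz h.det_ne).1] at k2
      rw [k1, k2]
  -- edges `(p q; t u)` with `3 ∣ t`
  have hev : ∀ p q t u : ℤ, p * u - q * t = 1 → (3 : ℤ) ∣ t → G p t = G q u := by
    intro p q t u h h2
    have hn := nz (p := p) (q := q) (t := t) (u := u) (by rw [h]; exact one_ne_zero)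
    rcases cls8 (t : ZMod 7) (u : ZMod 7) with e | e | e
    · exact hm p q t u (Or.inl ⟨h, h2⟩) e
    · have : (7 : ℤ) ∣ t - 5 * u := dvd7.2 (by push_cast; exact e)
      obtain ⟨c', hc'⟩ := this
      have hh : KTy (3 * p + 6 * q) (-2 * p - 3 * q) (7 * (3 * (c' + u))) (-2 * t - 3 * u) := by
        refine Or.inr ⟨?_, ⟨p + 2 * q, by ring⟩, ⟨7 * (c' + u), by ring⟩, ?_⟩
        · linear_combination 3 * h - 3 * (2 * p + 3 * q) * hc'
        · exact dvd_sub (Dvd.dvd.mul_left h2 _) ⟨u, rfl⟩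
      obtain ⟨-, -, k1, k2⟩ := key _ _ _ _ hh
      have g1 : 3 * p + 6 * q + 2 * (-2 * p - 3 * q) = -p := by ring
      have g2 : 7 * (3 * (c' + u)) + 2 * (-2 * t - 3 * u) = -t := by linear_combination -3 * hc'
      have g3 : 2 * (3 * p + 6 * q) + 3 * (-2 * p - 3 * q) = 3 * q := by ring
      have g4 : 2 * (7 * (3 * (c' + u))) + 3 * (-2 * t - 3 * u) = 3 * u := by
        linear_combination -6 * hc'
      rw [g1, g2, hneg hn.1] at k1
      rw [g3, g4, hsc 3 q u (by norm_num) hn.2] at k2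
      rw [k1, k2]
    · have hh : KTy (3 * q) (-p) (3 * u) (-t) :=
        Or.inr ⟨by linear_combination 3 * h, ⟨q, rfl⟩, ⟨u, rfl⟩, (dvd_neg).2 h2⟩
      have k := hm _ _ _ _ hh (by
        push_cast
        rcases e with e | e | e | e
        · exact Or.inl e
        · exact Or.inr (Or.inl (by linear_combination e))
        · exact Or.inr (Or.inr (Or.inl (by linear_combination e)))
        · exact Or.inr (Or.inr (Or.inr (by linear_combination e))))
      rw [hsc 3 q u (by norm_num) hn.2, hneg hn.1] at k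
      exact k.symm
  -- edges with `3 ∣ u`
  have hev' : ∀ p q t u : ℤ, p * u - q * t = 1 → (3 : ℤ) ∣ u → G p t = G q u := by
    intro p q t u h h2
    have hn := nz (p := p) (q := q) (t := t) (u := u) (by rw [h]; exact one_ne_zero)
    have k := hev q (-p) u (-t) (by linear_combination h) h2
    rw [k, hneg hn.1]
  refine hf R _ G hG.1 fun p q t u h => ?_
  by_cases ht : (3 : ℤ) ∣ t
  · exact hev p q t u (by linear_combination h) ht
  · by_cases hu : (3 : ℤ) ∣ u
    · exact hev' p q t u (by linear_combination h) hu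
    · by_cases htu : (3 : ℤ) ∣ t + u
      · rw [hev' p (p + q) t (t + u) (by linear_combination h) htu]
        exact hev (p + q) q (t + u) u (by linear_combination h) htu
      · have htu' : (3 : ℤ) ∣ t - u := by
          have a1 : t % 3 = 1 ∨ t % 3 = 2 := by omega
          have a2 : u % 3 = 1 ∨ u % 3 = 2 := by omega
          rcases a1 with a1 | a1 <;> rcases a2 with a2 | a2 <;> omega
        rw [← hev (p - q) p (t - u) t (by linear_combination h) htu']
        exact hev (p - q) q (t - u) u (by linear_combination h) htu'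

end Pool.Agent.Helper51.TK7
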